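import Pool.Agent.helper64.D2.SpecF

/-!
# Project dc: (MP_5823cb_al), module NR2
-/

set_option autoImplicit false

open Filter Topology
open scoped commutatorElement

namespace Pool.Agent.helper64.D2

theorem NR2 (hGGB : GGB_stmt) : NR2_stmt := by
  obtain ⟨hext, -, -, -, -, -, htr, -⟩ := hGGB
  intro f hf hne
  have hc : Continuous (gg f) := hf.1.continuous
  have hu : Continuous (fun x => gg f x - x) := hc.sub continuous_id
  have hex : ∃ x0 : ℝ, ∀ n : ℤ, gg f x0 - x0 ≠ n := by
    by_contra hcon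
    push Not at hcon
    have hconst : ∀ x y : ℝ, ¬ (gg f x - x < gg f y - y) := by
      intro x y hxy
      obtain ⟨n, hn⟩ := hcon x
      obtain ⟨m, hm⟩ := hcon y
      rw [hn, hm] at hxy
      have hnm : n < m := by exact_mod_cast hxy
      have hnm' : (n : ℝ) + 1 ≤ m := by exact_mod_cast hnm
      have h1 : ((n : ℝ) + 1 / 2) ∈ Set.range (fun x => gg f x - x) := by
        apply mem_range_of_exists_le_of_exists_ge hu
        · exact ⟨x, by show gg f x - x ≤ _; rw [hn]; linarith⟩
        · exact ⟨y, by show _ ≤ gg f y - y; rw [hm]; linarith⟩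
      obtain ⟨z, hz⟩ := h1
      obtain ⟨k, hk⟩ := hcon z
      have h2 : (k : ℝ) = n + 1 / 2 := by
        rw [← hk]
        exact hz
      have h3 : ((2 * k : ℤ) : ℝ) = ((2 * n + 1 : ℤ) : ℝ) := by
        push_cast
        rw [h2]
        ring
      have h4 : 2 * k = 2 * n + 1 := by exact_mod_cast h3
      omega
    obtain ⟨n, hn⟩ := hcon 0
    apply hne n
    apply hext
    intro x
    rw [(htr (n : ℝ)).2 x]
    have h1 : gg f x - x = gg f 0 - 0 := le_antisymm (not_lt.mp (hconst 0 x)) (not_lt.mp (hconst x 0))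
    rw [hn] at h1
    linarith
  obtain ⟨x0, hx0⟩ := hex
  set ρ : ℝ := |(gg f x0 - x0) - round (gg f x0 - x0)| with hρ
  have hρ0 : 0 < ρ := by
    rw [hρ, abs_pos, sub_ne_zero]
    exact hx0 _
  obtain ⟨δ, hδ, hδ'⟩ := Metric.continuousAt_iff.mp (hc.continuousAt (x := x0)) (ρ / 4) (by linarith)
  refine ⟨x0, min (δ / 2) (ρ / 8), lt_min (by linarith) (by linarith), ?_⟩
  intro x hx y hy n hxy
  have hη1 : min (δ / 2) (ρ / 8) ≤ δ / 2 := min_le_left _ _
  have hη2 : min (δ / 2) (ρ / 8) ≤ ρ / 8 := min_le_right _ _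
  have h1 : dist x x0 < δ := by
    rw [Real.dist_eq, abs_lt]
    constructor
    · linarith [hx.1]
    · linarith [hx.2]
  have h2 := hδ' h1
  rw [Real.dist_eq, abs_lt] at h2
  have h3 : ρ ≤ |(gg f x0 - x0) - n| := round_le _ _
  have h4 : |(gg f x0 - x0) - n| ≤ ρ / 4 + ρ / 8 := by
    rw [abs_le]
    constructor
    · linarith [hy.1, hy.2, h2.1, h2.2]
    · linarith [hy.1, hy.2, h2.1, h2.2]
  linarith

end Pool.Agent.helper64.D2
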